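import Pool.Agent.H9.Wade

set_option autoImplicit false

namespace Pool.Agent.Results.MP_ae2185_co.Counter

open Pool.Agent.H9.Wade

theorem result : ∃ (V : Type) (_ : Fintype V) (G : SimpleGraph V),
    (∀ e ∈ G.edgeSet, G.indepNum < (G.deleteEdges {e}).indepNum) ∧ (∀ v, ∃ w, G.Adj v w) ∧
      ∃ x y : V, 2 ≤ (G.neighborSet x).ncard ∧ 2 ≤ (G.neighborSet y).ncard ∧
        ∀ S : Finset V, G.IsIndepSet S → S.card = G.indepNum → x ∈ S ∨ y ∈ S := by
  have d : ∀ x, G.degree x = (G.neighborSet x).ncard := fun x => by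
    rw [← SimpleGraph.card_neighborSet_eq_degree, Set.ncard_eq_toFinset_card', Set.toFinset_card]
  exact ⟨Fin 14, inferInstance, G, crit, by decide +kernel, 11, 13, d 11 ▸ by decide +kernel,
    d 13 ▸ by decide +kernel, hit⟩

end Pool.Agent.Results.MP_ae2185_co.Counter
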